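import Pool.Agent.Helper50.Drop.CoDefs

/-!
# The combinatorial degree lemma

The product of the coboundaries of four functions, each of which takes the values `0` and `1` on the
two faces of the cube in one direction, evaluates to `±1`.
-/

set_option autoImplicit false

namespace Pool.Agent.Helper50.Drop

open Finset MeasureTheory
open scoped RealInnerProductSpace
open Pool.Agent.Helper76.Freq (Q ins tr gr ev cobd cup Pr Adm gp Dep Nrm R3 E6 ver pt qf IsTop IsBot
  H4 exists_isTop exists_isBot)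

/-- the cup product of the coboundary of a function with a cochain -/
def evlD {Y : Type} (f : Y → ℤ) (Ψ : (ℕ → Y) → ℤ) (y : ℕ → Y) : ℤ :=
  (f (y 1) - f (y 0)) * Ψ (fun j => y (j + 1))

theorem evlD_dep {Y : Type} {d : ℕ} (f : Y → ℤ) {Ψ : (ℕ → Y) → ℤ} (h : Dep d Ψ) :
    Dep (d + 1) (evlD f Ψ) := by
  intro y y' hy
  unfold evlD
  rw [hy 0 (by omega), hy 1 (by omega), h _ (fun j => y' (j + 1)) fun j hj => hy (j + 1) (by omega)]

theorem evlD_eq_cup {Y : Type} (f : Y → ℤ) (Ψ : (ℕ → Y) → ℤ) :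
    evlD f Ψ = cup 1 (cobd 0 fun y => f (y 0)) Ψ := by
  funext y
  simp only [evlD, cup, cobd, sum_range_succ, range_zero, sum_empty]
  simp [Pool.Agent.Helper76.Freq.sk]
  left
  ring

theorem evl_cobd_cobd {Y : Type} (f : Y → ℤ) (y : ℕ → Y) :
    cobd 1 (cobd 0 fun y => f (y 0)) y = 0 := by
  simp only [cobd, sum_range_succ, range_zero, sum_empty]
  simp [Pool.Agent.Helper76.Freq.sk]
  ring

theorem evl_dep0 {Y : Type} (f : Y → ℤ) : Dep 0 fun y : ℕ → Y => f (y 0) := by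
  intro y y' hy
  simp only [hy 0 le_rfl]

theorem evlD_closed {Y : Type} {d : ℕ} (f : Y → ℤ) {Ψ : (ℕ → Y) → ℤ}
    (hcl : ∀ y, cobd d Ψ y = 0) (y : ℕ → Y) : cobd (d + 1) (evlD f Ψ) y = 0 := by
  rw [evlD_eq_cup, Nat.add_comm d 1,
    Pool.Agent.Helper76.Freq.cobd_cup ((evl_dep0 f).cobd)]
  have h2 : cobd (0 + 1) (cobd 0 fun y : ℕ → Y => f (y 0)) y = 0 := evl_cobd_cobd f y
  simp only [cup, h2, hcl, zero_mul, mul_zero, add_zero]

theorem evl_step {Y : Type} {d : ℕ} {Ms : ℕ → ℕ} (hM : ∀ i, 0 < Ms i) (f : Y → ℤ)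
    {Ψ : (ℕ → Y) → ℤ} (hΨ : Dep d Ψ) (hcl : ∀ y, cobd d Ψ y = 0) (c : Q → Y) {l : ℕ} (hl : l ≤ d)
    {a b : ℤ} (h0 : ∀ x, f (c (ins l 0 x)) = a) (h1 : ∀ x, f (c (ins l 1 x)) = b)
    (ho : ∀ i ≤ d, i ≠ l → ∀ e : unitInterval, (e = 0 ∨ e = 1) → ∀ y : ℕ → Q,
      Ψ (fun j => c (ins i e (y j))) = 0) :
    ev (d + 1) Ms (evlD f Ψ) c = (-1) ^ l *
      (b * ev d (fun m => Ms (Pool.Agent.Helper76.Freq.sk l m)) Ψ (fun x => c (ins l 1 x)) -
        a * ev d (fun m => Ms (Pool.Agent.Helper76.Freq.sk l m)) Ψ (fun x => c (ins l 0 x))) := by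
  have e1 : evlD f Ψ = cobd d (fun y => f (y 0) * Ψ y) := by
    funext y
    have := Pool.Agent.Helper76.Freq.cobd_cup (q := d) (Ψ := Ψ) (evl_dep0 f) y
    rw [Nat.zero_add] at this
    have h2 : cup 0 (fun y : ℕ → Y => f (y 0)) Ψ = fun y => f (y 0) * Ψ y := by
      funext y; simp [cup]
    rw [h2] at this
    rw [this, evlD_eq_cup]
    simp [cup, hcl]
  have hdep : Dep d (fun y : ℕ → Y => f (y 0) * Ψ y) := by
    intro y y' hy
    simp only
    rw [hy 0 (Nat.zero_le _), hΨ y y' hy]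
  rw [e1, Pool.Agent.Helper76.Freq.stokes hM hdep c]
  rw [sum_eq_single l]
  · congr 1
    have key : ∀ (e : unitInterval) (b : ℤ), (∀ x, f (c (ins l e x)) = b) →
        ev d (fun m => Ms (Pool.Agent.Helper76.Freq.sk l m)) (fun y => f (y 0) * Ψ y)
          (fun x => c (ins l e x)) =
        b * ev d (fun m => Ms (Pool.Agent.Helper76.Freq.sk l m)) Ψ (fun x => c (ins l e x)) := by
      intro e b hb
      rw [← Pool.Agent.Helper76.Freq.ev_mul]
      refine Pool.Agent.Helper76.Freq.ev_congr_image fun x => ?_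
      simp only [hb]
    rw [key 1 b h1, key 0 a h0]
  · intro i hi hne
    have hi' : i ≤ d := by have := mem_range.1 hi; omega
    have key : ∀ (e : unitInterval), (e = 0 ∨ e = 1) →
        ev d (fun m => Ms (Pool.Agent.Helper76.Freq.sk i m)) (fun y => f (y 0) * Ψ y)
          (fun x => c (ins i e x)) = 0 := by
      intro e he
      refine Pool.Agent.Helper76.Freq.ev_eq_zero fun k pos _ => ?_
      simp only
      rw [ho i hi' hne e he, mul_zero]
    rw [key 1 (Or.inr rfl), key 0 (Or.inl rfl)]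
    simp
  · intro h
    exact absurd (mem_range.2 (by omega)) h

theorem ins_ins_comm {i k : ℕ} (h : i ≤ k) (e g : unitInterval) (x : Q) :
    ins (k + 1) e (ins i g x) = ins i g (ins k e x) := by
  funext j
  simp only [ins]
  by_cases h1 : j < i
  · have h2 : j < k + 1 := by omega
    have h3 : j < k := by omega
    simp [h1, h2, h3]
  · by_cases h4 : j = i
    · subst h4
      have h2 : j < k + 1 := by omega
      simp [h2]
    · by_cases h5 : j < k + 1
      · have h6 : j - 1 < k := by omega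
        simp [h1, h4, h5, h6]
      · by_cases h7 : j = k + 1
        · subst h7
          have h8 : ¬ (k + 1 < i) := by omega
          have h9 : ¬ (k + 1 = i) := by omega
          simp [h8, h9]
        · have a1 : ¬ (j - 1 < i) := by omega
          have a2 : ¬ (j - 1 = i) := by omega
          have a3 : ¬ (j - 1 < k) := by omega
          have a4 : ¬ (j - 1 = k) := by omega
          simp [h1, h4, h5, h7, a1, a2, a3, a4]

theorem ev_prod4 (Ms : ℕ → ℕ) (hM : ∀ i, 0 < Ms i) (fX fC fB fA : Q → ℤ)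
    (hX0 : ∀ x, fX (ins 3 0 x) = 0) (hX1 : ∀ x, fX (ins 3 1 x) = 1)
    (hC0 : ∀ x, fC (ins 0 0 x) = 1) (hC1 : ∀ x, fC (ins 0 1 x) = 0)
    (hB0 : ∀ x, fB (ins 2 0 x) = 0) (hB1 : ∀ x, fB (ins 2 1 x) = 1)
    (hA0 : ∀ x, fA (ins 1 0 x) = 1) (hA1 : ∀ x, fA (ins 1 1 x) = 0) :
    ev 4 Ms (prod4 fX fC fB fA) (fun x => x) = 1 ∨ ev 4 Ms (prod4 fX fC fB fA) (fun x => x) = -1 := by
  set u : (ℕ → Q) → ℤ := fun _ => 1 with hu
  have du : Dep 0 u := fun _ _ _ => rfl
  have cu : ∀ y, cobd 0 u y = 0 := by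
    intro y
    simp [cobd, sum_range_succ, hu]
  have dA := evlD_dep fA du
  have cA := evlD_closed fA cu
  have dB := evlD_dep fB dA
  have cB := evlD_closed fB cA
  have dC := evlD_dep fC dB
  have cC := evlD_closed fC cB
  have e0 : prod4 fX fC fB fA = evlD fX (evlD fC (evlD fB (evlD fA u))) := by
    funext y
    simp [prod4, evlD, hu]
  have C' : ∀ e : unitInterval, (e = 0 ∨ e = 1) → ∀ x x', fC (ins 0 e x) = fC (ins 0 e x') := by
    rintro e (rfl | rfl) x x'
    · rw [hC0, hC0]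
    · rw [hC1, hC1]
  have B' : ∀ e : unitInterval, (e = 0 ∨ e = 1) → ∀ x x', fB (ins 2 e x) = fB (ins 2 e x') := by
    rintro e (rfl | rfl) x x'
    · rw [hB0, hB0]
    · rw [hB1, hB1]
  have A' : ∀ e : unitInterval, (e = 0 ∨ e = 1) → ∀ x x', fA (ins 1 e x) = fA (ins 1 e x') := by
    rintro e (rfl | rfl) x x'
    · rw [hA0, hA0]
    · rw [hA1, hA1]
  -- step 1
  rw [e0, evl_step (l := 3) (a := 0) (b := 1) hM fX dC cC (fun x => x) (by omega) hX0 hX1 ?_]
  swap
  · intro i hi hne e he y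
    have : i = 0 ∨ i = 1 ∨ i = 2 := by omega
    rcases this with rfl | rfl | rfl
    · simp only [evlD]
      rw [C' e he (y (0 + 1)) (y 0)]
      ring
    · simp only [evlD]
      rw [A' e he (y (1 + 1 + 1)) (y (0 + 1 + 1))]
      ring
    · simp only [evlD]
      rw [B' e he (y (1 + 1)) (y (0 + 1))]
      ring
  -- step 2
  rw [evl_step (l := 0) (a := 1) (b := 0) (fun i => hM _) fC dB cB (fun x => ins 3 1 x) (by omega)
    (fun x => by rw [ins_ins_comm (by omega), hC0])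
    (fun x => by rw [ins_ins_comm (by omega), hC1]) ?_]
  swap
  · intro i hi hne e he y
    have : i = 1 ∨ i = 2 := by omega
    rcases this with rfl | rfl
    · simp only [evlD]
      rw [ins_ins_comm (show 1 ≤ 2 by omega) 1 e (y (1 + 1)),
        ins_ins_comm (show 1 ≤ 2 by omega) 1 e (y (0 + 1)),
        A' e he _ (ins 2 1 (y (0 + 1)))]
      ring
    · simp only [evlD]
      rw [ins_ins_comm (show 2 ≤ 2 by omega) 1 e (y 1),
        ins_ins_comm (show 2 ≤ 2 by omega) 1 e (y 0),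
        B' e he _ (ins 2 1 (y 0))]
      ring
  -- step 3
  have hB2 : ∀ (e : unitInterval) (x : Q), ins 3 1 (ins 0 0 (ins 1 e x)) =
      ins 2 e (ins 2 1 (ins 0 0 x)) := by
    intro e x
    rw [← ins_ins_comm (show 0 ≤ 1 by omega), ins_ins_comm (show 2 ≤ 2 by omega)]
  have hA2 : ∀ (e : unitInterval) (x : Q), ins 3 1 (ins 0 0 (ins 0 e x)) =
      ins 1 e (ins 2 1 (ins 0 0 x)) := by
    intro e x
    rw [← ins_ins_comm (show 0 ≤ 0 by omega), ins_ins_comm (show 1 ≤ 2 by omega)]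
  rw [evl_step (l := 1) (a := 0) (b := 1) (fun i => hM _) fB dA cA
    (fun x => ins 3 1 (ins 0 0 x)) (by omega)
    (fun x => by rw [hB2, hB0]) (fun x => by rw [hB2, hB1]) ?_]
  swap
  · intro i hi hne e he y
    have : i = 0 := by omega
    subst this
    simp only [evlD]
    rw [hA2, hA2, A' e he _ (ins 2 1 (ins 0 0 (y 0)))]
    ring
  -- step 4
  have hA3 : ∀ (e : unitInterval) (x : Q), ins 3 1 (ins 0 0 (ins 1 1 (ins 0 e x))) =
      ins 1 e (ins 2 1 (ins 0 0 (ins 0 1 x))) := by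
    intro e x
    rw [ins_ins_comm (show 0 ≤ 0 by omega), hA2]
  rw [evl_step (l := 0) (a := 1) (b := 0) (fun i => hM _) fA du cu
    (fun x => ins 3 1 (ins 0 0 (ins 1 1 x))) (by omega)
    (fun x => by rw [hA3, hA0]) (fun x => by rw [hA3, hA1]) ?_]
  swap
  · intro i hi hne e he y
    exact absurd (by omega) hne
  have hev : ∀ (Ms : ℕ → ℕ) (c : Q → Q), ev 0 Ms u c = 1 := fun Ms c => rfl
  simp only [hev]
  norm_num

end Pool.Agent.Helper50.Drop
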